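import Mathlib

/-!
# MP_37b92f_co: random embeddings into universal sequences of ordered graphs

We prove Q1 (positive answer): if `(G_n)` is universal then for every ordered graph `H` there are
random embeddings `Φ_n : H → G_n`, defined for all large `n`, with
`max_e P(e ∈ Φ_n(H)) - e(H)/e(G_n) → 0`.
-/

open Finset Filter Topology

namespace Pool.Agent.Results.MP_37b92f_co.Universal

/-- An ordered graph: a simple graph on the vertex set `{0 < 1 < … < n-1}`. -/
structure OGraph where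
  /-- number of vertices -/
  n : ℕ
  /-- the graph -/
  graph : SimpleGraph (Fin n)

/-- The number of edges. -/
noncomputable def OGraph.e (G : OGraph) : ℕ := Nat.card G.graph.edgeSet

/-- An embedding `H → G`: an injective order-preserving map of the vertices sending edges to
edges. -/
def Emb (H G : OGraph) : Type :=
  {f : Fin H.n ↪o Fin G.n // ∀ u v, H.graph.Adj u v → G.graph.Adj (f u) (f v)}

/-- `G` is `F`-free if there is no embedding `F → G`. -/
def Free (F G : OGraph) : Prop := IsEmpty (Emb F G)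

/-- `ρ_<(F,G)`: the maximum of `e(G')/e(G)` over all `F`-free subgraphs `G'` of `G`. -/
noncomputable def rhoG (F G : OGraph) : ℝ :=
  sSup {x : ℝ | ∃ G' : SimpleGraph (Fin G.n), G' ≤ G.graph ∧ Free F ⟨G.n, G'⟩ ∧
    x = (OGraph.e ⟨G.n, G'⟩ : ℝ) / G.e}

/-- The relative Turán density `ρ_<(F)`: the infimum of `ρ_<(F,G)` over all ordered graphs `G`
with at least one edge. -/
noncomputable def rho (F : OGraph) : ℝ :=
  sInf {x : ℝ | ∃ G : OGraph, 1 ≤ G.e ∧ x = rhoG F G}

/-- A universal sequence of ordered graphs. -/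
def IsUniversal (G : ℕ → OGraph) : Prop :=
  (∀ᶠ n in atTop, 1 ≤ (G n).e) ∧
    ∀ F : OGraph, Tendsto (fun n => rhoG F (G n)) atTop (𝓝 (rho F))

/-- The edge set `φ(H)` of an embedding. -/
def Emb.edges {H G : OGraph} (φ : Emb H G) : Set (Sym2 (Fin G.n)) :=
  Sym2.map φ.1 '' H.graph.edgeSet

/-- A random embedding, given by its distribution. -/
abbrev RandEmb (H G : OGraph) : Type := PMF (Emb H G)

/-- `P(e ∈ Φ(H))`. -/
noncomputable def prob {H G : OGraph} (Φ : RandEmb H G) (e : Sym2 (Fin G.n)) : ℝ :=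
  (Φ.toOuterMeasure {φ | e ∈ φ.edges}).toReal

/-- `max_{e ∈ E(G)} P(e ∈ Φ(H))`. -/
noncomputable def maxProb {H G : OGraph} (Φ : RandEmb H G) : ℝ :=
  ⨆ e : G.graph.edgeSet, prob Φ e

/-- The complete ordered graph. -/
abbrev K (k : ℕ) : OGraph := ⟨k, ⊤⟩

theorem e_le_of_le {n : ℕ} {A B : SimpleGraph (Fin n)} (h : A ≤ B) :
    OGraph.e ⟨n, A⟩ ≤ OGraph.e ⟨n, B⟩ := by
  unfold OGraph.e
  exact Nat.card_mono (Set.toFinite _) (SimpleGraph.edgeSet_mono h)

theorem rhoG_bdd (F G : OGraph) : BddAbove {x : ℝ | ∃ G' : SimpleGraph (Fin G.n), G' ≤ G.graph ∧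
    Free F ⟨G.n, G'⟩ ∧ x = (OGraph.e ⟨G.n, G'⟩ : ℝ) / G.e} := by
  refine ⟨1, ?_⟩
  rintro x ⟨G', hG', -, rfl⟩
  apply div_le_one_of_le₀ _ (by positivity)
  exact_mod_cast e_le_of_le hG'

theorem rhoG_nonneg (F G : OGraph) : 0 ≤ rhoG F G := by
  apply Real.sSup_nonneg
  rintro x ⟨G', -, -, rfl⟩
  positivity

/-- If `G` is `F`-free and has an edge, then `ρ_<(F,G) ≥ 1`. -/
theorem one_le_rhoG_of_free (F G : OGraph) (hG : 1 ≤ G.e) (h : Free F G) : 1 ≤ rhoG F G := by
  apply le_csSup (rhoG_bdd F G)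
  refine ⟨G.graph, le_rfl, h, ?_⟩
  have : (G.e : ℝ) ≠ 0 := by
    have : 0 < G.e := hG
    positivity
  exact (div_self this).symm

/-- The identity embedding of `K k` into a complete graph on `k` vertices. -/
theorem not_free_self (G : OGraph) : ¬ Free G G := by
  intro h
  exact h.false ⟨(OrderIso.refl _).toOrderEmbedding, fun u v huv => huv⟩

theorem e_K_pos (k : ℕ) (hk : 2 ≤ k) : 1 ≤ (K k).e := by
  unfold OGraph.e
  have : Nonempty (K k).graph.edgeSet := by
    refine ⟨⟨s(⟨0, by unfold K; simp; omega⟩, ⟨1, by unfold K; simp; omega⟩), ?_⟩⟩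
    rw [SimpleGraph.mem_edgeSet]
    show (⊤ : SimpleGraph (Fin k)).Adj _ _
    rw [SimpleGraph.top_adj]
    intro h
    have := congrArg Fin.val h
    simp at this
  have h2 : Finite (K k).graph.edgeSet := Set.toFinite _
  exact Nat.card_pos

theorem rho_K_lt_one (k : ℕ) (hk : 2 ≤ k) : rho (K k) < 1 := by
  have h1 : rho (K k) ≤ rhoG (K k) (K k) := by
    apply csInf_le
    · refine ⟨0, ?_⟩
      rintro x ⟨G, -, rfl⟩
      exact rhoG_nonneg _ _
    · exact ⟨K k, e_K_pos k hk, rfl⟩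
  refine lt_of_le_of_lt h1 ?_
  have hpos := e_K_pos k hk
  have hb : rhoG (K k) (K k) ≤ (((K k).e : ℝ) - 1) / (K k).e := by
    unfold rhoG
    apply Real.sSup_le
    · rintro x ⟨G', hG', hfree, rfl⟩
      apply div_le_div_of_nonneg_right _ (by positivity)
      have hne : G' ≠ (K k).graph := by
        rintro rfl
        exact not_free_self _ hfree
      have hlt : OGraph.e ⟨(K k).n, G'⟩ < (K k).e := by
        unfold OGraph.e
        apply Set.Finite.card_lt_card (Set.toFinite _)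
        exact (SimpleGraph.edgeSet_ssubset_edgeSet).2 (lt_of_le_of_ne hG' hne)
      have : OGraph.e ⟨(K k).n, G'⟩ + 1 ≤ (K k).e := hlt
      have h' : ((OGraph.e ⟨(K k).n, G'⟩ : ℝ)) + 1 ≤ (K k).e := by exact_mod_cast this
      linarith
    · apply div_nonneg _ (by positivity)
      have : (1 : ℝ) ≤ (K k).e := by exact_mod_cast hpos
      linarith
  refine lt_of_le_of_lt hb ?_
  have : (0 : ℝ) < (K k).e := by exact_mod_cast hpos
  rw [div_lt_one this]
  linarith

/-- In a universal sequence every complete graph eventually embeds. -/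
theorem eventually_K (G : ℕ → OGraph) (hG : IsUniversal G) (k : ℕ) (hk : 2 ≤ k) :
    ∀ᶠ n in atTop, Nonempty (Emb (K k) (G n)) := by
  have h1 := (hG.2 (K k)).eventually (gt_mem_nhds (rho_K_lt_one k hk))
  filter_upwards [h1, hG.1] with n hn he
  by_contra hcon
  have : Free (K k) (G n) := not_nonempty_iff.1 hcon
  have := one_le_rhoG_of_free _ _ he this
  linarith

/-- The `i`-th block embedding. -/
def blockFun (h M : ℕ) (i : Fin M) (v : Fin h) : Fin (M * h) :=
  ⟨i * h + v, by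
    have h1 := i.2
    have h2 := v.2
    calc (i : ℕ) * h + v < i * h + h := by omega
      _ = (i + 1) * h := by ring
      _ ≤ M * h := Nat.mul_le_mul_right _ h1⟩

theorem blockFun_strictMono (h M : ℕ) (i : Fin M) : StrictMono (blockFun h M i) := by
  intro u v huv
  show (i : ℕ) * h + u < i * h + v
  have : (u : ℕ) < v := huv
  omega

theorem blockFun_inj {h M : ℕ} {i j : Fin M} {u v : Fin h}
    (heq : blockFun h M i u = blockFun h M j v) : i = j := by
  have h0 : (i : ℕ) * h + u = j * h + v := congrArg Fin.val heq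
  have hu := u.2
  have hv := v.2
  apply Fin.ext
  rcases lt_trichotomy (i : ℕ) j with hlt | hh | hlt
  · exfalso
    have : ((i : ℕ) + 1) * h ≤ j * h := Nat.mul_le_mul_right _ hlt
    nlinarith
  · exact hh
  · exfalso
    have : ((j : ℕ) + 1) * h ≤ i * h := Nat.mul_le_mul_right _ hlt
    nlinarith

/-- The block embeddings of `H` into `G` coming from a clique on `M * |V(H)|` vertices. -/
def blockEmb (H G : OGraph) (M k : ℕ) (hk : M * H.n ≤ k) (ψ : Emb (K k) G) (i : Fin M) :
    Emb H G :=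
  ⟨OrderEmbedding.ofStrictMono (fun v => ψ.1 (Fin.castLE hk (blockFun H.n M i v)))
    (fun u v huv => ψ.1.strictMono (Fin.strictMono_castLE hk (blockFun_strictMono _ _ _ huv))),
    fun u v huv => by
      apply ψ.2
      show (⊤ : SimpleGraph (Fin k)).Adj _ _
      rw [SimpleGraph.top_adj]
      intro heq
      have h1 := Fin.castLE_injective hk heq
      exact huv.ne ((blockFun_strictMono _ _ _).injective h1)⟩

theorem blockEmb_apply (H G : OGraph) (M k : ℕ) (hk : M * H.n ≤ k) (ψ : Emb (K k) G) (i : Fin M)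
    (v : Fin H.n) : (blockEmb H G M k hk ψ i).1 v = ψ.1 (Fin.castLE hk (blockFun H.n M i v)) := rfl

theorem block_disjoint (H G : OGraph) (M k : ℕ) (hk : M * H.n ≤ k) (ψ : Emb (K k) G)
    (e : Sym2 (Fin G.n)) (i j : Fin M) (hi : e ∈ (blockEmb H G M k hk ψ i).edges)
    (hj : e ∈ (blockEmb H G M k hk ψ j).edges) : i = j := by
  obtain ⟨a, ha, hae⟩ := hi
  obtain ⟨b, hb, hbe⟩ := hj
  induction a using Sym2.ind with
  | _ a1 a2 =>
    induction b using Sym2.ind with
    | _ b1 b2 =>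
      rw [Sym2.map_mk] at hae hbe
      have heq : s((blockEmb H G M k hk ψ i).1 a1, (blockEmb H G M k hk ψ i).1 a2) =
          s((blockEmb H G M k hk ψ j).1 b1, (blockEmb H G M k hk ψ j).1 b2) := by
        rw [← hbe] at hae
        exact hae
      rw [Sym2.eq_iff] at heq
      rcases heq with ⟨h1, -⟩ | ⟨h1, -⟩
      · rw [blockEmb_apply, blockEmb_apply] at h1
        exact blockFun_inj (Fin.castLE_injective hk (ψ.1.injective h1))
      · rw [blockEmb_apply, blockEmb_apply] at h1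
        exact blockFun_inj (Fin.castLE_injective hk (ψ.1.injective h1))

/-- If a clique on `M * |V(H)|` vertices embeds in `G`, some random embedding hits every edge
with probability at most `1/M`. -/
theorem exists_rand (H G : OGraph) (M k : ℕ) (hM : 1 ≤ M) (hk : M * H.n ≤ k)
    (ψ : Emb (K k) G) : ∃ Φ : RandEmb H G, ∀ e : Sym2 (Fin G.n), prob Φ e ≤ 1 / M := by
  classical
  have : Nonempty (Fin M) := ⟨⟨0, hM⟩⟩
  refine ⟨(PMF.uniformOfFintype (Fin M)).map (blockEmb H G M k hk ψ), fun e => ?_⟩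
  unfold prob
  rw [PMF.toOuterMeasure_map_apply, PMF.toOuterMeasure_uniformOfFintype_apply]
  have hcard : Fintype.card ↑(blockEmb H G M k hk ψ ⁻¹' {φ | e ∈ φ.edges}) ≤ 1 := by
    rw [Fintype.card_le_one_iff_subsingleton]
    constructor
    rintro ⟨i, hi⟩ ⟨j, hj⟩
    exact Subtype.ext (block_disjoint H G M k hk ψ e i j hi hj)
  rw [ENNReal.toReal_div]
  simp only [ENNReal.toReal_natCast, Fintype.card_fin]
  have : ((Fintype.card ↑(blockEmb H G M k hk ψ ⁻¹' {φ | e ∈ φ.edges}) : ℕ) : ℝ) ≤ 1 := by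
    exact_mod_cast hcard
  exact div_le_div_of_nonneg_right this (by positivity)

/-- A clique on `k` vertices in `G` gives at least `k - 1` edges. -/
theorem e_ge_of_clique (G : OGraph) (k : ℕ) (ψ : Emb (K (k + 1)) G) : k ≤ G.e := by
  unfold OGraph.e
  have : Finite G.graph.edgeSet := Set.toFinite _
  let f : Fin k → G.graph.edgeSet := fun i =>
    ⟨s(ψ.1 0, ψ.1 i.succ), by
      rw [SimpleGraph.mem_edgeSet]
      apply ψ.2
      show (⊤ : SimpleGraph (Fin (k + 1))).Adj _ _
      rw [SimpleGraph.top_adj]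
      exact (Fin.succ_ne_zero i).symm⟩
  have hf : Function.Injective f := by
    intro i j hij
    have h := congrArg Subtype.val hij
    simp only [f] at h
    rw [Sym2.eq_iff] at h
    rcases h with ⟨-, h⟩ | ⟨h, -⟩
    · exact Fin.succ_injective _ (ψ.1.injective h)
    · exact absurd (ψ.1.injective h) (Fin.succ_ne_zero j).symm
  have := Nat.card_le_card_of_injective f hf
  simpa using this

theorem maxProb_nonneg {H G : OGraph} (Φ : RandEmb H G) : 0 ≤ maxProb Φ :=
  Real.iSup_nonneg fun _ => ENNReal.toReal_nonneg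

theorem abs_sub_le (x y δ : ℝ) (hx : 0 ≤ x) (hx' : x ≤ δ) (hy : 0 ≤ y) (hy' : y ≤ δ) :
    |x - y| ≤ δ := by
  rw [abs_le]; constructor <;> linarith

/-- The `ε`-version of Q1. -/
theorem eps_version (G : ℕ → OGraph) (hG : IsUniversal G) (H : OGraph) (δ : ℝ) (hδ : 0 < δ) :
    ∀ᶠ n in atTop, ∃ Φ : RandEmb H (G n), |maxProb Φ - (H.e : ℝ) / (G n).e| ≤ δ := by
  obtain ⟨M, hM⟩ := exists_nat_gt (1 / δ)
  have hM1 : 1 ≤ M := by
    rcases Nat.eq_zero_or_pos M with h | h
    · exfalso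
      rw [h] at hM
      have : 0 < 1 / δ := by positivity
      simp at hM
      linarith
    · exact h
  obtain ⟨L, hL⟩ := exists_nat_gt ((H.e : ℝ) / δ)
  filter_upwards [eventually_K G hG (M * H.n + L + 1 + 1) (by omega)] with n hn
  obtain ⟨ψ⟩ := hn
  obtain ⟨Φ, hΦ⟩ := exists_rand H (G n) M (M * H.n + L + 1 + 1) hM1 (by omega) ψ
  refine ⟨Φ, ?_⟩
  have hMδ : (1 : ℝ) / M ≤ δ := by
    rw [div_le_iff₀ (by exact_mod_cast hM1)]
    rw [div_lt_iff₀ hδ] at hM
    linarith
  have he := e_ge_of_clique (G n) (M * H.n + L + 1) ψ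
  have heR : (L : ℝ) ≤ (G n).e := by
    have : L ≤ (G n).e := by omega
    exact_mod_cast this
  have hLpos : (0 : ℝ) < (G n).e := by
    have : 0 < (G n).e := by omega
    exact_mod_cast this
  apply abs_sub_le
  · exact maxProb_nonneg Φ
  · apply Real.iSup_le _ hδ.le
    intro e
    exact (hΦ e).trans hMδ
  · positivity
  · rw [div_le_iff₀ hLpos]
    rw [div_lt_iff₀ hδ] at hL
    nlinarith

/-- **Q1 (positive answer).** Let `(G_n)` be universal. For every ordered graph `H` there are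
random embeddings `Φ_n : H → G_n`, defined for all `n ≥ N`, such that
`max_{e ∈ E(G_n)} P(e ∈ Φ_n(H)) - e(H)/e(G_n) → 0`. -/
theorem result (G : ℕ → OGraph) (hG : IsUniversal G) (H : OGraph) :
    ∃ (N : ℕ) (Φ : ∀ k : ℕ, RandEmb H (G (N + k))),
      Tendsto (fun k => maxProb (Φ k) - (H.e : ℝ) / (G (N + k)).e) atTop (𝓝 0) := by
  classical
  obtain ⟨N, hN⟩ := eventually_atTop.1 (eps_version G hG H 1 one_pos)
  have hne : ∀ k : ℕ, Nonempty (RandEmb H (G (N + k))) := fun k => by
    obtain ⟨Φ, -⟩ := hN (N + k) (by omega)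
    exact ⟨Φ⟩
  let val : ∀ k : ℕ, RandEmb H (G (N + k)) → ℝ := fun k Φ =>
    |maxProb Φ - (H.e : ℝ) / (G (N + k)).e|
  have hbdd : ∀ k, BddBelow (Set.range (val k)) := fun k => by
    refine ⟨0, ?_⟩
    rintro x ⟨Φ, rfl⟩
    exact abs_nonneg _
  have hchoose : ∀ k : ℕ, ∃ Φ : RandEmb H (G (N + k)),
      val k Φ < (⨅ Ψ, val k Ψ) + 1 / ((k : ℝ) + 1) := fun k => by
    have := hne k
    exact exists_lt_of_ciInf_lt (lt_add_of_pos_right _ (by positivity))
  choose Φ hΦ using hchoose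
  refine ⟨N, Φ, ?_⟩
  rw [Metric.tendsto_atTop]
  intro ε hε
  obtain ⟨N1, hN1⟩ := eventually_atTop.1 (eps_version G hG H (ε / 2) (by linarith))
  obtain ⟨N2, hN2⟩ := exists_nat_gt (2 / ε)
  refine ⟨max N1 N2, fun k hk => ?_⟩
  have hk1 : N1 ≤ k := le_trans (le_max_left _ _) hk
  have hk2 : N2 ≤ k := le_trans (le_max_right _ _) hk
  obtain ⟨Ψ, hΨ⟩ := hN1 (N + k) (by omega)
  have h1 : (⨅ Ψ, val k Ψ) ≤ ε / 2 := (ciInf_le (hbdd k) Ψ).trans hΨ
  have h2 : (1 : ℝ) / ((k : ℝ) + 1) < ε / 2 := by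
    rw [div_lt_iff₀ (by positivity)]
    rw [div_lt_iff₀ hε] at hN2
    have : (N2 : ℝ) ≤ k := by exact_mod_cast hk2
    nlinarith
  have h3 := hΦ k
  rw [dist_zero_right, Real.norm_eq_abs]
  show val k (Φ k) < ε
  linarith

end Pool.Agent.Results.MP_37b92f_co.Universal
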